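import Pool.Agent.H8.VR.Targets
import Pool.Agent.H8.VR.StepL

/-!
# Tools for configurations
-/

set_option autoImplicit false

namespace Pool.Agent.H33.VR

open Pool.Agent.H8.VR Classical

section
variable {N Q L T O C A : Type} [Fintype A]

theorem kn_congr (lam : A → L) (th th' : A → A → T) (Y : Set A) (a : A)
    (h : ∀ b ∈ Y, b ≠ a → th' a b = th a b) : kn lam th' Y a = kn lam th Y a := by
  funext p
  unfold kn
  refine num_congr fun b => ?_
  constructor
  · rintro ⟨h1, h2, h3, h4⟩
    exact ⟨h1, h2, h3, by rw [← h b h1 h2]; exact h4⟩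
  · rintro ⟨h1, h2, h3, h4⟩
    exact ⟨h1, h2, h3, by rw [h b h1 h2]; exact h4⟩

theorem stt_congr (K : Cp C) (lam : A → L) (th th' : A → A → T) (Y : Set A) (a : A)
    (h : ∀ b ∈ Y, b ≠ a → th' a b = th a b) : stt K lam th' Y a = stt K lam th Y a := by
  unfold stt
  rw [kn_congr lam th th' Y a h]

theorem cf_congr (K : Cp C) (lam : A → L) (th th' : A → A → T) (X Y : Set A) (c c' : A → Q)
    (h : ∀ a ∈ X, ∀ b ∈ Y, b ≠ a → th' a b = th a b) (hc : ∀ a ∈ X, c' a = c a) :
    cf K lam th' X Y c' = cf K lam th X Y c := by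
  funext τ
  unfold cf
  refine num_congr fun a => ?_
  refine and_congr_right fun ha => ?_
  rw [stt_congr K lam th th' Y a (h a ha), hc a ha]

theorem num_zero {P : A → Prop} (h : ∀ a, ¬ P a) : num P = 0 := by
  by_contra h'
  obtain ⟨a, ha⟩ := num_pos h'
  exact h a ha

theorem num_ne_zero {P : A → Prop} {a : A} (h : P a) : num P ≠ 0 := by
  unfold num
  rw [Ne, Finset.card_eq_zero]
  intro h'
  have : a ∈ Finset.univ.filter P := by simp [h]
  rw [h'] at this
  simp at this

theorem cf_empty (K : Cp C) (lam : A → L) (th : A → A → T) (Y : Set A) (c : A → Q)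
    (σ : Ix Q L T C) : cf K lam th ∅ Y c σ = 0 := num_zero fun _ h => h.1

omit [Fintype A] in
theorem gen_col {S : Sg N Q L T O} {lam : A → L} {th : A → A → T} {s : N} {X : Set A}
    {c : A → Q} (h : S.Gen lam th s X c) (c' : A → Q) (hc : ∀ a ∈ X, c' a = c a) :
    S.Gen lam th s X c' := by
  cases h with
  | pt s a c h =>
    exact Sg.Gen.pt s a c' (by rw [hc a rfl]; exact h)
  | op o X Y c c₁ c₂ h₁ h₂ hd hg ha hX hY =>
    exact Sg.Gen.op o X Y c' c₁ c₂ h₁ h₂ hd hg ha
      (fun a h => by rw [hc a (Or.inl h), hX a h]) (fun a h => by rw [hc a (Or.inr h), hY a h])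

omit [Fintype A] in
theorem gen_nonempty {S : Sg N Q L T O} {lam : A → L} {th : A → A → T} {s : N} {X : Set A}
    {c : A → Q} (h : S.Gen lam th s X c) : X.Nonempty := by
  induction h with
  | pt s a c h => exact ⟨a, rfl⟩
  | op o X Y c c₁ c₂ h₁ h₂ hd hg ha hX hY ih1 ih2 => exact ih1.mono Set.subset_union_left

end

section
variable {N Q L T O C A : Type} [Fintype Q] [Fintype L] [Fintype T] [Fintype C] [Fintype A]

/-- the completed union -/
theorem fn_cf (S : Sg N Q L T O) (K : Cp C) (o : O) (lam : A → L) (th : A → A → T) (X Z : Set A)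
    (hd : Disjoint X Z) (col c' : A → Q) (hX : ∀ a ∈ X, c' a = S.f o (col a))
    (hZ : ∀ a ∈ Z, c' a = S.g o (col a)) :
    Fn S o (cf K lam th X (X ∪ Z) col) (cf K lam th Z (X ∪ Z) col)
      (cf K lam th (X ∪ Z) (X ∪ Z) c') := by
  intro σ
  unfold cf
  rw [num_union X Z hd]
  congr 1
  · rw [← num_fib (fun a => a ∈ X) (fun a => (col a, stt K lam th (X ∪ Z) a))
      (fun ρ => (S.f o ρ.1, ρ.2) = σ)]
    refine num_congr fun a => ?_
    refine and_congr_right fun ha => ?_
    rw [hX a ha]
  · rw [← num_fib (fun a => a ∈ Z) (fun a => (col a, stt K lam th (X ∪ Z) a))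
      (fun ρ => (S.g o ρ.1, ρ.2) = σ)]
    refine num_congr fun a => ?_
    refine and_congr_right fun ha => ?_
    rw [hZ a ha]

omit [Fintype Q] [Fintype L] [Fintype T] [Fintype C] in
/-- the configuration of a one-element structure -/
theorem cf_single (K : Cp C) (lam : A → L) (th : A → A → T) (a : A) (col : A → Q)
    (σ : Ix Q L T C) :
    cf K lam th {a} {a} col σ = ind (σ = (col a, (lam a, fun _ => K.cp 0))) := by
  unfold cf
  rw [num_single]
  have e : stt K lam th {a} a = (lam a, fun _ => K.cp 0) := by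
    unfold stt
    refine Prod.ext rfl (funext fun p => ?_)
    simp only
    congr 1
    unfold kn
    exact num_zero fun b h => h.2.1 h.1
  rw [e]
  exact ind_congr eq_comm

end

end Pool.Agent.H33.VR
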