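import Pool.Agent.H8.VR.Targets

/-!
# Supported relations are contained in closed relations
-/

set_option autoImplicit false

namespace Pool.Agent.H33.VR

open Pool.Agent.H8.VR Classical

/-- target IN of the board -/
theorem pf_IN (hTT : T_TT) : T_IN := by
  intro N Q L T O C _ _ _ _ S K M n gp gm F F' J J' hg hS hC
  obtain ⟨_, hFn, hSt, hz, _⟩ := hTT N Q L T O C S K
  obtain ⟨hS1, hS2⟩ := hS
  obtain ⟨hC1, hC2, hC3, hC4⟩ := hC
  have key : ∀ t : ℕ, ∀ s c, Lt M c → F' s c → tot c = t → F s c := by
    intro t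
    induction t using Nat.strong_induction_on with
    | _ t ih =>
      have hB : ∀ e : ℕ, ∀ o a b d, Lt M a → Lt M b → Lt M d → J' o a b d →
          tot a + tot b + tot d = t → tot d = e → J o a b d := by
        intro e
        induction e with
        | zero =>
          intro o a b d ha hb hd hJ ht he
          rcases hS2 o a b d ha hb hd hJ with ⟨h0, h1, h2, h3, h4, h5, h6⟩ | h
          · have hd0 : tot d = 0 := (hz d).1 h0
            have hFa : F (S.s o) a := ih (tot a) (by omega) _ _ ha h1 rfl
            have hFb : F (S.t o) b := ih (tot b) (by omega) _ _ hb h2 rfl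
            exact (hC2 o a b d ha hb hd h0 hFa hFb h3 h4 h5).resolve_left (hg o _ _ h3 h4 h5 h6)
          · obtain ⟨τ, m, a₀, b₀, d₀, _, _, _, _, _, hst⟩ := h
            have := (hSt o τ m a₀ b₀ d₀ a b d hst).2.2.1
            omega
        | succ e ihe =>
          intro o a b d ha hb hd hJ ht he
          rcases hS2 o a b d ha hb hd hJ with ⟨h0, h1, h2, h3, h4, h5, h6⟩ | h
          · have hd0 : tot d = 0 := (hz d).1 h0
            omega
          · obtain ⟨τ, m, a₀, b₀, d₀, hm, ha0, hb0, hd0, hJ0, hst⟩ := h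
            obtain ⟨e1, e2, e3, _⟩ := hSt o τ m a₀ b₀ d₀ a b d hst
            exact hC3 o τ m a₀ b₀ d₀ a b d hm ha0 hb0 hd0 ha hb hd
              (ihe o a₀ b₀ d₀ ha0 hb0 hd0 hJ0 (by omega) (by omega)) hst
      intro s c hc hF ht
      rcases hS1 s c hc hF with h | h
      · exact hC1 s c hc h
      · obtain ⟨o, rfl, a, b, d, ha, hb, hd, hb0, hJ, hfn⟩ := h
        have e1 : tot b = 0 := (hz b).1 hb0
        have e2 := hFn o a d c hfn
        exact hC4 o a b d c ha hb hd hc hb0 (hB (tot d) o a b d ha hb hd hJ (by omega) rfl) hfn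
  intro s c hc hF
  exact key _ s c hc hF rfl

end Pool.Agent.H33.VR
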