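import Pool.Agent.H33.VR.Cf

/-!
# The generated structures are closed under the rules
-/

set_option autoImplicit false

namespace Pool.Agent.H33.VR

open Pool.Agent.H8.VR Classical

section
variable {N Q L T O C : Type} [Fintype Q] [Fintype L] [Fintype T] [Fintype C]

/-- one-element structures -/
theorem rc_pt (S : Sg N Q L T O) (K : Cp C) [Nonempty T] (s : N) (c : Ix Q L T C → ℕ)
    (h : Ptc S K s c) : RF S K s c := by
  obtain ⟨q, l, h1, h2⟩ := h
  refine ⟨Unit, inferInstance, fun _ => l, fun _ _ => Classical.arbitrary T, {()}, fun _ => q,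
    fun a b hab => absurd (Subsingleton.elim a b) hab, Sg.Gen.pt s () _ h1, ?_⟩
  funext σ
  rw [h2 σ, cf_single]

/-- the types of the disjoint union -/
def thU {A B : Type} (S : Sg N Q L T O) (th₁ : A → A → T) (th₂ : B → B → T) (θ₀ : T) :
    A ⊕ B → A ⊕ B → T
  | .inl a, .inl a' => th₁ a a'
  | .inr b, .inr b' => th₂ b b'
  | .inl _, .inr _ => θ₀
  | .inr _, .inl _ => S.sw θ₀

theorem thU_sym {A B : Type} (S : Sg N Q L T O) (th₁ : A → A → T) (th₂ : B → B → T) (θ₀ : T)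
    (h₁ : Sym S th₁) (h₂ : Sym S th₂) : Sym S (thU S th₁ th₂ θ₀) := by
  intro a b hab
  rcases a with a | a <;> rcases b with b | b
  · exact h₁ a b fun h => hab (by rw [h])
  · rfl
  · exact (S.sw_sw θ₀).symm
  · exact h₂ a b fun h => hab (by rw [h])

/-- the initial incomplete union -/
theorem rc_union (hGM : T_GM) (hCM : T_CM) (hTT : T_TT) (S : Sg N Q L T O) (K : Cp C) [Nonempty T]
    (o : O) (a b d : Ix Q L T C → ℕ) (hd : ∀ σ, d σ = 0) (ha : RF S K (S.s o) a)
    (hb : RF S K (S.t o) b) (hg : Nat.pair (tot a) (tot b) ∈ S.D o) : RJ S K o a b d := by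
  obtain ⟨hT, _⟩ := hTT N Q L T O C S K
  obtain ⟨A, iA, lam₁, th₁, X, c₁, hs₁, hG₁, rfl⟩ := ha
  obtain ⟨B, iB, lam₂, th₂, Y, c₂, hs₂, hG₂, rfl⟩ := hb
  rw [hT, hT] at hg
  have hd0 : ∀ (V : Set (A ⊕ B)), d = cf K (Sum.elim lam₁ lam₂)
      (thU S th₁ th₂ (Classical.arbitrary T)) ∅ V (Sum.elim c₁ c₂) := by
    intro V
    funext σ
    rw [hd σ, cf_empty]
  have i1 : Set.InjOn (Sum.inl : A → A ⊕ B) X := Sum.inl_injective.injOn
  have i2 : Set.InjOn (Sum.inr : B → A ⊕ B) Y := Sum.inr_injective.injOn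
  have eX : Sum.inl '' X ∪ (∅ : Set (A ⊕ B)) = Sum.inl '' X := Set.union_empty _
  have eY : Sum.inr '' Y ∪ (∅ : Set (A ⊕ B)) = Sum.inr '' Y := Set.union_empty _
  refine ⟨A ⊕ B, inferInstance, Sum.elim lam₁ lam₂, thU S th₁ th₂ (Classical.arbitrary T),
    Sum.inl '' X, Sum.inr '' Y, ∅, Sum.elim c₁ c₂, thU_sym S _ _ _ hs₁ hs₂, ⟨?_, ?_, ?_⟩, ?_, ?_, ?_,
    ?_, ?_, ?_, hd0 _⟩
  · rw [Set.disjoint_left]
    rintro _ ⟨a, _, rfl⟩ ⟨b, _, h⟩
    exact absurd h (by simp)
  · exact Set.disjoint_empty _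
  · exact Set.disjoint_empty _
  · exact hGM N Q L T O A (A ⊕ B) S lam₁ th₁ _ X c₁ hG₁ Sum.inl i1 _ _ _ (fun _ _ => rfl)
      (fun _ _ _ _ _ => rfl) (fun _ _ => rfl)
  · rw [eY]
    exact hGM N Q L T O B (A ⊕ B) S lam₂ th₂ _ Y c₂ hG₂ Sum.inr i2 _ _ _ (fun _ _ => rfl)
      (fun _ _ _ _ _ => rfl) (fun _ _ => rfl)
  · rw [eY, Set.ncard_image_of_injOn i1, Set.ncard_image_of_injOn i2]
    exact hg
  · exact fun _ _ z hz => absurd hz (Set.notMem_empty z)
  · rw [eX]
    exact (hCM Q L T C A (A ⊕ B) K lam₁ th₁ X X c₁ Sum.inl i1 subset_rfl _ _ _ (fun _ _ => rfl)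
      (fun _ _ _ _ _ => rfl) (fun _ _ => rfl)).symm
  · rw [eY]
    exact (hCM Q L T C B (A ⊕ B) K lam₂ th₂ Y Y c₂ Sum.inr i2 subset_rfl _ _ _ (fun _ _ => rfl)
      (fun _ _ _ _ _ => rfl) (fun _ _ => rfl)).symm

/-- the types after the choice of the types between `X` and `y` -/
noncomputable def thI {A : Type} (S : Sg N Q L T O) (th : A → A → T) (X : Set A) (y : A)
    (g : A → T) (u v : A) : T :=
  if v = y ∧ u ∈ X then g u else if u = y ∧ v ∈ X then S.sw (g v) else th u v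

section
variable {A : Type} (S : Sg N Q L T O) (th : A → A → T) (X : Set A) (y : A) (g : A → T)

theorem thI_left (x : A) (hx : x ∈ X) : thI S th X y g x y = g x := if_pos ⟨rfl, hx⟩

theorem thI_of (u v : A) (h1 : v = y → u ∉ X) (h2 : u = y → v ∉ X) :
    thI S th X y g u v = th u v := by
  unfold thI
  rw [if_neg fun h => h1 h.1 h.2, if_neg fun h => h2 h.1 h.2]

theorem thI_sym (hs : Sym S th) (hy : y ∉ X) : Sym S (thI S th X y g) := by
  intro u v huv
  unfold thI
  by_cases h1 : v = y ∧ u ∈ X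
  · rw [if_pos h1, if_pos h1]
    rw [if_neg]
    rintro ⟨h, _⟩
    exact hy (h ▸ h1.2)
  · by_cases h2 : u = y ∧ v ∈ X
    · rw [if_pos h2, if_neg h1, if_pos h2, S.sw_sw]
    · rw [if_neg h2, if_neg h1, if_neg h1, if_neg h2]
      exact hs u v huv

end

/-- a step determines the new configurations -/
theorem step_det (S : Sg N Q L T O) (K : Cp C) (o : O) (τ : Ix Q L T C) (m : Ix Q L T C × T → ℕ)
    (a b d a₁ b₁ d₁ a₂ b₂ d₂ : Ix Q L T C → ℕ) (h₁ : Step S K o τ m a b d a₁ b₁ d₁)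
    (h₂ : Step S K o τ m a b d a₂ b₂ d₂) : a₁ = a₂ ∧ b₁ = b₂ ∧ d₁ = d₂ := by
  obtain ⟨_, _, p1, p2, p3⟩ := h₁
  obtain ⟨_, _, q1, q2, q3⟩ := h₂
  refine ⟨funext fun σ => ?_, funext fun σ => ?_, funext fun σ => ?_⟩
  · rw [p2, q2]
  · have := p1 σ
    have := q1 σ
    omega
  · rw [p3, q3]

/-- the insertion of one element -/
theorem rc_step (hGM : T_GM) (hFB : T_FB) (S : Sg N Q L T O) (K : Cp C) [Nonempty T]
    (o : O) (τ : Ix Q L T C) (m : Ix Q L T C × T → ℕ) (a b d a' b' d' : Ix Q L T C → ℕ)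
    (hJ : RJ S K o a b d) (hst : Step S K o τ m a b d a' b' d') : RJ S K o a' b' d' := by
  obtain ⟨A, iA, lam, th, X, Y, Z, col, hsym, ⟨hXY, hXZ, hYZ⟩, hG1, hG2, hgd, hal, ea, eb, ed⟩ := hJ
  obtain ⟨s1, s2, s3, s4, s5⟩ := id hst
  have hb1 : b τ ≠ 0 := by
    have := s3 τ
    rw [ind_pos rfl] at this
    omega
  rw [eb] at hb1
  obtain ⟨y, hyY, hyτ⟩ := num_pos hb1
  obtain ⟨g, hg⟩ := hFB A (Ix Q L T C) T X (fun x => (col x, stt K lam th (X ∪ Z) x)) m
    (fun σ => by rw [s1 σ, ea]; rfl)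
  have hyX : y ∉ X := fun h => Set.disjoint_left.1 hXY h hyY
  have hyZ : y ∉ Z := Set.disjoint_left.1 hYZ hyY
  have eY : insert y (Y \ {y}) = Y := Set.insert_sdiff_self_of_mem hyY
  have hX' : Disjoint X (Y \ {y}) := hXY.mono_right Set.sdiff_subset
  have hyY' : y ∉ Y \ {y} := fun h => h.2 rfl
  have eYZ : Y \ {y} ∪ insert y Z = Y ∪ Z := by
    rw [Set.union_insert, ← Set.insert_union, eY]
  have eXYZ : X ∪ Y \ {y} ∪ insert y Z = X ∪ Y ∪ Z := by
    rw [Set.union_assoc, eYZ, Set.union_assoc]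
  have hs' : Sym S (thI S th X y g) := thI_sym S th X y g hsym hyX
  have hal' : ∀ x ∈ X, S.al o (col x) (col y) (thI S th X y g x y) := by
    intro x hx
    rw [thI_left S th X y g x hx]
    have h1 : m ((col x, stt K lam th (X ∪ Z) x), g x) ≠ 0 := by
      rw [← hg]
      exact num_ne_zero (a := x) ⟨hx, rfl⟩
    have h2 := s2 _ h1
    rw [← hyτ] at h2
    exact h2
  have st := step_lemma S K lam (thI S th X y g) hs' X (Y \ {y}) Z y hX' hXZ hyX hyY' hyZ col o hal'
  have c1 : cf K lam (thI S th X y g) X (X ∪ Z) col = a := by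
    rw [ea]
    refine cf_congr K lam th _ X (X ∪ Z) col col ?_ fun _ _ => rfl
    intro u hu v hv _
    refine thI_of S th X y g u v ?_ ?_
    · rintro rfl
      exact absurd hv fun h => h.elim hyX hyZ
    · rintro rfl
      exact absurd hu hyX
  have c2 : cf K lam (thI S th X y g) (insert y (Y \ {y})) (Y \ {y} ∪ insert y Z) col = b := by
    rw [eb, eY, eYZ]
    refine cf_congr K lam th _ Y (Y ∪ Z) col col ?_ fun _ _ => rfl
    intro u hu v hv _
    refine thI_of S th X y g u v ?_ ?_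
    · rintro _ h
      exact Set.disjoint_left.1 hXY h hu
    · rintro _ h
      exact hv.elim (Set.disjoint_left.1 hXY h) (Set.disjoint_left.1 hXZ h)
  have c3 : cf K lam (thI S th X y g) Z (X ∪ Y \ {y} ∪ insert y Z) col = d := by
    rw [ed, eXYZ]
    refine cf_congr K lam th _ Z (X ∪ Y ∪ Z) col col ?_ fun _ _ => rfl
    intro u hu v hv _
    refine thI_of S th X y g u v ?_ ?_
    · rintro _ h
      exact Set.disjoint_left.1 hXZ h hu
    · rintro rfl
      exact absurd hu hyZ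
  have cst : ∀ x ∈ X, stt K lam (thI S th X y g) (X ∪ Z) x = stt K lam th (X ∪ Z) x := by
    intro u hu
    refine stt_congr K lam th _ (X ∪ Z) u ?_
    intro v hv _
    refine thI_of S th X y g u v ?_ ?_
    · rintro rfl
      exact absurd hv fun h => h.elim hyX hyZ
    · rintro rfl
      exact absurd hu hyX
  have c4 : mz K lam (thI S th X y g) X (X ∪ Z) col y = m := by
    funext p
    rw [← hg p]
    unfold mz
    refine num_congr fun x => ?_
    refine and_congr_right fun hx => ?_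
    rw [cst x hx, thI_left S th X y g x hx]
  have c5 : (col y, stt K lam (thI S th X y g) (Y \ {y} ∪ insert y Z) y) = τ := by
    rw [← hyτ, eYZ]
    have : stt K lam (thI S th X y g) (Y ∪ Z) y = stt K lam th (Y ∪ Z) y := by
      refine stt_congr K lam th _ (Y ∪ Z) y ?_
      intro v hv _
      refine thI_of S th X y g y v ?_ ?_
      · rintro _
        exact hyX
      · rintro _ h
        exact hv.elim (Set.disjoint_left.1 hXY h) (Set.disjoint_left.1 hXZ h)
    rw [this]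
  rw [c1, c2, c3, c4, c5] at st
  obtain ⟨e1, e2, e3⟩ := step_det S K o τ m a b d _ _ _ _ _ _ hst st
  refine ⟨A, iA, lam, thI S th X y g, X, Y \ {y}, insert y Z, col, hs', ⟨hX', ?_, ?_⟩, ?_, ?_, ?_,
    ?_, e1, e2, e3⟩
  · exact Set.disjoint_insert_right.2 ⟨hyX, hXZ⟩
  · exact Set.disjoint_insert_right.2 ⟨hyY', hYZ.mono_left Set.sdiff_subset⟩
  · have := hGM N Q L T O A A S lam th _ X col hG1 id Function.injective_id.injOn lam
      (thI S th X y g) col (fun _ _ => rfl) (fun u hu v hv _ => thI_of S th X y g u v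
        (fun h => absurd hv (by rw [h]; exact hyX)) (fun h => absurd hu (by rw [h]; exact hyX)))
        (fun _ _ => rfl)
    rwa [Set.image_id] at this
  · rw [eYZ]
    have := hGM N Q L T O A A S lam th _ (Y ∪ Z) col hG2 id Function.injective_id.injOn lam
      (thI S th X y g) col (fun _ _ => rfl) (fun u hu v hv _ => thI_of S th X y g u v
        (fun _ h => hu.elim (Set.disjoint_left.1 hXY h) (Set.disjoint_left.1 hXZ h))
        (fun _ h => hv.elim (Set.disjoint_left.1 hXY h) (Set.disjoint_left.1 hXZ h)))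
        (fun _ _ => rfl)
    rwa [Set.image_id] at this
  · rw [eYZ]; exact hgd
  · intro x hx z hz
    rcases hz with rfl | hz
    · exact hal' x hx
    · rw [thI_of S th X y g x z (fun h => absurd hz (by rw [h]; exact hyZ))
        (fun h => absurd hx (by rw [h]; exact hyX))]
      exact hal x hx z hz

/-- the complete union -/
theorem rc_fin (S : Sg N Q L T O) (K : Cp C) (o : O) (a b d c : Ix Q L T C → ℕ)
    (hb : ∀ σ, b σ = 0) (hJ : RJ S K o a b d) (hfn : Fn S o a d c) : RF S K (S.u o) c := by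
  obtain ⟨A, iA, lam, th, X, Y, Z, col, hsym, ⟨hXY, hXZ, hYZ⟩, hG1, hG2, hgd, hal, ea, eb, ed⟩ := hJ
  have hY : Y = ∅ := by
    rw [Set.eq_empty_iff_forall_notMem]
    intro y hy
    have h1 := hb (col y, stt K lam th (Y ∪ Z) y)
    rw [eb] at h1
    exact num_ne_zero (a := y) ⟨hy, rfl⟩ h1
  subst hY
  rw [Set.empty_union] at hG2 hgd
  rw [Set.union_empty] at ed
  let c' : A → Q := fun a => if a ∈ X then S.f o (col a) else S.g o (col a)
  have hX' : ∀ a ∈ X, c' a = S.f o (col a) := fun a h => if_pos h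
  have hZ' : ∀ a ∈ Z, c' a = S.g o (col a) := fun a h => if_neg fun h' =>
    Set.disjoint_left.1 hXZ h' h
  refine ⟨A, iA, lam, th, X ∪ Z, c', hsym, Sg.Gen.op o X Z c' col col hG1 hG2 hXZ hgd hal hX' hZ', ?_⟩
  have h1 := fn_cf S K o lam th X Z hXZ col c' hX' hZ'
  funext σ
  rw [hfn σ, h1 σ, ea, ed]

end

/-- target RC of the board -/
theorem pf_RC (hGM : T_GM) (hCM : T_CM) (hFB : T_FB) (hTT : T_TT) : T_RC := by
  intro N Q L T O C _ _ _ _ _ S K M n
  refine ⟨fun s c _ h => rc_pt S K s c h, ?_, ?_, ?_⟩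
  · intro o a b d _ _ _ hd ha hb _ _ _
    by_cases hg : Nat.pair (tot a) (tot b) ∈ S.D o
    · exact Or.inr (rc_union hGM hCM hTT S K o a b d hd ha hb hg)
    · exact Or.inl hg
  · intro o τ m a b d a' b' d' _ _ _ _ _ _ _ hJ hst
    exact rc_step hGM hFB S K o τ m a b d a' b' d' hJ hst
  · intro o a b d c _ _ _ _ hb hJ hfn
    exact rc_fin S K o a b d c hb hJ hfn

end Pool.Agent.H33.VR
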