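import Pool.Agent.H33.VR.Cf

/-!
# The generated structures come from the rules
-/

set_option autoImplicit false

namespace Pool.Agent.H33.VR

open Pool.Agent.H8.VR Classical

/-- target RS of the board -/
theorem pf_RS (hTT : T_TT) : T_RS := by
  intro N Q L T O C _ _ _ _ S K M n hn
  obtain ⟨hT, _, hSt, hz, hle⟩ := hTT N Q L T O C S K
  have hlt : ∀ c : Ix Q L T C → ℕ, tot c ≤ n → Lt M c := fun c hc σ =>
    lt_of_le_of_lt ((hle c σ).trans hc) hn
  refine ⟨?_, ?_⟩
  · rintro s c hc ⟨⟨A, _, lam, th, X, col, hsym, hG, rfl⟩, htot⟩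
    cases hG with
    | pt s a col h =>
      exact Or.inl ⟨col a, lam a, h, fun σ => cf_single K lam th a col σ⟩
    | op o X Y col c₁ c₂ h₁ h₂ hd hg ha hX hY =>
      right
      refine ⟨o, rfl, ?_⟩
      let g : A → Q := fun a => if a ∈ X then c₁ a else c₂ a
      have hgX : ∀ a ∈ X, g a = c₁ a := fun a h => if_pos h
      have hgY : ∀ a ∈ Y, g a = c₂ a := fun a h => if_neg fun h' =>
        Set.disjoint_left.1 hd h' h
      have e0 : (∅ : Set A) ∪ Y = Y := Set.empty_union Y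
      have e1 : X ∪ (∅ : Set A) ∪ Y = X ∪ Y := by rw [Set.union_empty]
      have t1 : tot (cf K lam th X (X ∪ Y) g) + tot (cf K lam th ∅ (∅ ∪ Y) g) +
          tot (cf K lam th Y (X ∪ ∅ ∪ Y) g) ≤ n := by
        rw [hT, hT, hT, Set.ncard_empty, add_zero, ← Set.ncard_union_eq hd]
        rw [hT] at htot
        exact htot
      refine ⟨cf K lam th X (X ∪ Y) g, cf K lam th ∅ (∅ ∪ Y) g, cf K lam th Y (X ∪ ∅ ∪ Y) g,
        hlt _ (by omega), hlt _ (by omega), hlt _ (by omega), fun σ => cf_empty K lam th _ g σ,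
        ⟨⟨A, _, lam, th, X, ∅, Y, g, hsym, ⟨Set.disjoint_empty X, hd, Set.empty_disjoint Y⟩,
          gen_col h₁ g hgX, ?_, ?_, ?_, rfl, rfl, rfl⟩, t1⟩, ?_⟩
      · rw [e0]
        exact gen_col h₂ g hgY
      · rw [e0]
        exact hg
      · intro x hx z hz'
        rw [hgX x hx, hgY z hz']
        exact ha x hx z hz'
      · rw [e1]
        refine fn_cf S K o lam th X Y hd g col ?_ ?_
        · intro a h
          rw [hX a h, hgX a h]
        · intro a h
          rw [hY a h, hgY a h]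
  · rintro o a b d ha hb hd' ⟨⟨A, _, lam, th, X, Y, Z, col, hsym, ⟨hXY, hXZ, hYZ⟩, hG1, hG2, hgd,
      hal, rfl, rfl, rfl⟩, htot⟩
    rcases Z.eq_empty_or_nonempty with rfl | ⟨z, hzZ⟩
    · left
      have e1 : X ∪ (∅ : Set A) = X := Set.union_empty X
      have e2 : Y ∪ (∅ : Set A) = Y := Set.union_empty Y
      rw [e2] at hG2 hgd
      have p1 : 0 < X.ncard := (Set.ncard_pos (Set.toFinite X)).2 (gen_nonempty hG1)
      have p2 : 0 < Y.ncard := (Set.ncard_pos (Set.toFinite Y)).2 (gen_nonempty hG2)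
      rw [hT, hT, hT] at htot
      rw [e1, e2]
      refine ⟨fun σ => cf_empty K lam th _ col σ, ⟨⟨A, _, lam, th, X, col, hsym, hG1, rfl⟩, ?_⟩,
        ⟨⟨A, _, lam, th, Y, col, hsym, hG2, rfl⟩, ?_⟩, ?_, ?_, ?_, ?_⟩
      · rw [hT]; omega
      · rw [hT]; omega
      · rw [hT]; exact p1
      · rw [hT]; exact p2
      · rw [hT, hT]; omega
      · simp only [hT]; exact hgd
    · right
      have hX' : Disjoint X (Z \ {z}) := hXZ.mono_right Set.diff_subset
      have eZ : insert z (Z \ {z}) = Z := Set.insert_diff_self_of_mem hzZ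
      have hzX : z ∉ X := fun h => Set.disjoint_left.1 hXZ h hzZ
      have hzY : z ∉ Y := fun h => Set.disjoint_left.1 hYZ h hzZ
      have hzZ' : z ∉ Z \ {z} := fun h => h.2 rfl
      have eYZ : insert z Y ∪ (Z \ {z}) = Y ∪ Z := by
        rw [Set.insert_union, ← Set.union_insert, eZ]
      have eXYZ : X ∪ insert z Y ∪ (Z \ {z}) = X ∪ Y ∪ Z := by
        rw [Set.union_assoc, eYZ, Set.union_assoc]
      have st := step_lemma S K lam th hsym X Y (Z \ {z}) z hXY hX' hzX hzY hzZ' col o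
        (fun x hx => hal x hx z hzZ)
      rw [eZ] at st
      obtain ⟨t1, t2, t3, t4⟩ := hSt o _ _ _ _ _ _ _ _ st
      refine ⟨_, _, _, _, _, ?_, hlt _ (by omega), hlt _ (by omega), hlt _ (by omega), ⟨?_, ?_⟩, st⟩
      · intro p
        refine lt_of_le_of_lt (t4 p) ?_
        omega
      · refine ⟨A, _, lam, th, X, insert z Y, Z \ {z}, col, hsym, ⟨?_, hX', ?_⟩, hG1, ?_, ?_, ?_,
          rfl, ?_, ?_⟩
        · exact Set.disjoint_insert_right.2 ⟨hzX, hXY⟩
        · exact Set.disjoint_insert_left.2 ⟨hzZ', hYZ.mono_right Set.diff_subset⟩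
        · rw [eYZ]; exact hG2
        · rw [eYZ]; exact hgd
        · exact fun x hx w hw => hal x hx w hw.1
        · rw [eYZ]
        · rw [eXYZ]
      · omega

end Pool.Agent.H33.VR
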